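import Mathlib

open Polynomial Complex Real

namespace Pool.Agent.Results.MP_8a3680_nt.Counter

/-- The value at `x` of the polynomial whose roots are the `e^(2 π i k^2 / p)`. -/
noncomputable def S (p : ℕ) (x : ℂ) : ℂ :=
  ∏ k ∈ Finset.Icc 1 ((p - 1) / 2), (x - cexp (2 * π * I * (k : ℂ) ^ 2 / p))

noncomputable def θ : ℂ := cexp (2 * π * I / (4764 : ℕ))

lemma prim : IsPrimitiveRoot θ 4764 := Complex.isPrimitiveRoot_exp 4764 (by norm_num)

def B {R : Type*} [CommRing R] (N M c m a : ℕ) (t : R) : R :=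
  ∏ k ∈ Finset.Icc 1 m, ((t ^ a - t ^ (c * k ^ 2 % M)) *
    (t ^ (N * a % M) - t ^ (N * (c * k ^ 2) % M)))

def A {R : Type*} [CommRing R] (a : ℕ) (t : R) : R := B 4763 4764 12 198 a t

lemma cj (m : ℕ) : (starRingEnd ℂ) (θ ^ m) = θ ^ (4763 * m) := by
  have h : ‖θ‖ = 1 := prim.norm'_eq_one (by norm_num)
  rw [map_pow, pow_mul, ← Complex.inv_eq_conj h]
  congr 1
  exact inv_eq_of_mul_eq_one_right (by rw [← pow_succ', prim.pow_eq_one])

lemma nS (a : ℕ) : ((‖S 397 (θ ^ a)‖ ^ 2 : ℝ) : ℂ) = A a θ := by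
  rw [← Complex.normSq_eq_norm_sq, ← Complex.mul_conj, S, map_prod, ← Finset.prod_mul_distrib, A,
    B]
  refine Finset.prod_congr rfl fun k _ => ?_
  have : cexp (2 * π * I * (k : ℂ) ^ 2 / (397 : ℕ)) = θ ^ (12 * k ^ 2) := by
    rw [θ, ← Complex.exp_nat_mul]; congr 1; push_cast; ring
  rw [this, map_sub, cj, cj]
  simp only [← pow_eq_pow_mod _ prim.pow_eq_one]

instance : Fact (Nat.Prime 14293) := ⟨by norm_num⟩

lemma hp (e : ℕ) : (5 : ZMod 14293) ^ e = (5 ^ e % 14293 : ℕ) := by simp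

lemma tr {n : ℕ} {t : ℂ} (ht : IsPrimitiveRoot t n) (hn : 0 < n) {F : Type*} [Field F] {g : F}
    (hg : IsPrimitiveRoot g n) {P : ℤ[X]} (h : aeval t P = 0) : aeval g P = 0 := by
  have d : cyclotomic n ℤ ∣ P := by
    rw [cyclotomic_eq_minpoly ht hn]
    exact minpoly.isIntegrallyClosed_dvd (ht.isIntegral hn) h
  have r := hg.isRoot_cyclotomic hn
  rw [← map_cyclotomic_int, IsRoot, ← algebraMap_int_eq, eval_map_algebraMap] at r
  exact aeval_eq_zero_of_dvd_aeval_eq_zero d r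

lemma pg : IsPrimitiveRoot (5 : ZMod 14293) 4764 :=
  IsPrimitiveRoot.iff_orderOf.2 <| orderOf_eq_of_pow_and_pow_div_prime (by norm_num)
    (by rw [hp]; decide +kernel) fun r hr hd => by
    have : r ∈ Nat.primeFactorsList 4764 := (Nat.mem_primeFactorsList (by norm_num)).2 ⟨hr, hd⟩
    rw [show Nat.primeFactorsList 4764 = [2, 2, 3, 397] by simp [Nat.primeFactorsList_ofNat]]
      at this
    simp only [List.mem_cons, List.not_mem_nil, or_false] at this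
    rw [hp]
    rcases this with rfl | rfl | rfl | rfl <;> decide +kernel

lemma mB {R : Type*} [CommRing R] (N M c m a T : ℕ) (t : R) :
    aeval t (B N M c m a (X : ℤ[X]) ^ 2 - (T : ℤ[X]) * B N M c m a X + 1) =
      B N M c m a t ^ 2 - T * B N M c m a t + 1 := by
  simp [B, map_prod]

lemma key {a : ℕ} (h : A a θ ^ 2 - 6350 * A a θ + 1 = 0) :
    A a (5 : ZMod 14293) ^ 2 - 6350 * A a 5 + 1 = 0 :=
  (mB _ _ _ _ a 6350 _).symm.trans (tr prim (by norm_num) pg ((mB _ _ _ _ a 6350 θ).trans h))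

theorem result : ∃ p x y : ℕ, p.Prime ∧ p % 24 = 13 ∧
    (0 < x ∧ 0 < y ∧ 3 * x ^ 2 + 1 = p * y ^ 2) ∧
    (∀ x' y' : ℕ, 0 < x' → 0 < y' → 3 * x' ^ 2 + 1 = p * y' ^ 2 → x ≤ x' ∧ y ≤ y') ∧
    ∀ u : ℂ, ‖u‖ = 1 →
      S p (cexp (2 * π * I / 12)) ≠ u * ((x * √3 - y * √p : ℝ) : ℂ) ∧
      S p (cexp (-(2 * π * I / 12))) ≠ u * ((x * √3 - y * √p : ℝ) : ℂ) ∧
      S p (cexp (2 * π * I * 5 / 12)) ≠ u * ((x * √3 + y * √p : ℝ) : ℂ) ∧
      S p (cexp (-(2 * π * I * 5 / 12))) ≠ u * ((x * √3 + y * √p : ℝ) : ℂ) := by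
  have w : ∀ a b : ℕ, ∀ z : ℂ, a * (2 * π * I / (4764 : ℕ)) = z + b * (2 * π * I) →
      cexp z = θ ^ a := fun a b z h => by
    rw [θ, ← Complex.exp_nat_mul, h, Complex.exp_add, Complex.exp_nat_mul_two_pi_mul_I, mul_one]
  refine ⟨397, 23, 2, by norm_num, by norm_num, by norm_num, fun x y hx hy h => ?_,
    fun u hu => ?_⟩
  · have : 2 ≤ y := by
      by_contra c
      obtain rfl : y = 1 := by omega
      have : x ≤ 12 := by nlinarith
      interval_cases x <;> omega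
    exact ⟨by nlinarith, this⟩
  have s3 : √3 ^ 2 = 3 := Real.sq_sqrt (by norm_num)
  have s7 : √(397 : ℕ) ^ 2 = 397 := by rw [Real.sq_sqrt (by positivity)]; norm_num
  have G : ∀ a (r : ℝ), (r ^ 2) ^ 2 - 6350 * r ^ 2 + 1 = 0 → S 397 (θ ^ a) = u * r →
      A a (5 : ZMod 14293) ^ 2 - 6350 * A a 5 + 1 = 0 := fun a r hr e => key (by
    rw [← nS, e, norm_mul, hu, one_mul, Complex.norm_real, Real.norm_eq_abs, sq_abs]
    exact_mod_cast hr)
  rw [w 397 0 _ (by push_cast; ring), w 4367 1 (-_) (by push_cast; ring),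
    w 1985 0 _ (by push_cast; ring), w 2779 1 (-_) (by push_cast; ring)]
  generalize √3 = a at *
  generalize √(397 : ℕ) = b at *
  have h1 : ((((23 : ℕ) * a - (2 : ℕ) * b) ^ 2) ^ 2 - 6350 * ((23 : ℕ) * a - (2 : ℕ) * b) ^ 2 + 1
      : ℝ) = 0 := by
    push_cast
    have : (23 * a - 2 * b) ^ 2 = 3175 - 92 * (a * b) := by linear_combination 529 * s3 + 4 * s7
    rw [this]
    linear_combination 8464 * b ^ 2 * s3 + 25392 * s7
  have h2 : ((((23 : ℕ) * a + (2 : ℕ) * b) ^ 2) ^ 2 - 6350 * ((23 : ℕ) * a + (2 : ℕ) * b) ^ 2 + 1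
      : ℝ) = 0 := by
    push_cast
    have : (23 * a + 2 * b) ^ 2 = 3175 + 92 * (a * b) := by linear_combination 529 * s3 + 4 * s7
    rw [this]
    linear_combination 8464 * b ^ 2 * s3 + 25392 * s7
  refine ⟨fun e => absurd (G _ _ h1 e) ?_, fun e => absurd (G _ _ h1 e) ?_,
    fun e => absurd (G _ _ h2 e) ?_, fun e => absurd (G _ _ h2 e) ?_⟩ <;>
  · simp only [A, B, hp]
    decide +kernel

end Pool.Agent.Results.MP_8a3680_nt.Counter
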